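import Pool.Agent.helper38.BN.Eig
import Pool.Agent.helper24.BN.Conf
import Pool.Agent.helper95.BN.LL
import Pool.Agent.helper22.BN.AxSp
import Pool.Agent.helper23.BN.Basic
import Pool.Agent.helper58.BN.Solve
import Pool.Agent.helper41.BN.Pw
import Pool.Agent.helper52.BN.Ode

set_option autoImplicit false
open MeasureTheory Filter Topology Set Metric
open scoped ContDiff Gradient RealInnerProductSpace ENNReal

noncomputable section
namespace Pool.Agent.helper13.BN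
variable {N : ℕ}

/-! ### a perturbed `2 × 2` matrix -/

theorem nd51_mat {p0 q0 r0 s0 : ℝ} (h : p0 * s0 - q0 * r0 ≠ 0) : ∃ ε K : ℝ, 0 < ε ∧ 0 < K ∧
    ∀ p q r s x y : ℝ, |p - p0| ≤ ε → |q - q0| ≤ ε → |r - r0| ≤ ε → |s - s0| ≤ ε →
      |x| + |y| ≤ K * (|p * x + q * y| + |r * x + s * y|) := by
  set M : ℝ := |p0| + |q0| + |r0| + |s0| + 1 with hM
  have hM1 : 1 ≤ M := by
    have := abs_nonneg p0; have := abs_nonneg q0; have := abs_nonneg r0
    have := abs_nonneg s0; linarith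
  have hM0 : 0 < M := by linarith
  set F : ℝ := |p0 * s0 - q0 * r0| with hF
  have hF0 : 0 < F := abs_pos.2 h
  refine ⟨min 1 (F / (8 * M)), 4 * M / F, lt_min one_pos (by positivity), by positivity, ?_⟩
  intro p q r s x y hp hq hr hs
  have e1 : min 1 (F / (8 * M)) ≤ 1 := min_le_left _ _
  have e2 : min 1 (F / (8 * M)) ≤ F / (8 * M) := min_le_right _ _
  have hε0 : 0 ≤ min 1 (F / (8 * M)) := (lt_min one_pos (by positivity)).le
  set ε : ℝ := min 1 (F / (8 * M)) with hε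
  have tr : ∀ a a0 : ℝ, |a - a0| ≤ ε → |a| ≤ |a0| + 1 := fun a a0 ha => by
    have : |a| ≤ |a - a0| + |a0| := by
      calc |a| = |(a - a0) + a0| := by ring_nf
        _ ≤ _ := abs_add_le _ _
    linarith
  have bp : |p| ≤ M := by
    have := tr p p0 hp; have := abs_nonneg q0; have := abs_nonneg r0; have := abs_nonneg s0
    linarith
  have bq : |q| ≤ M := by
    have := tr q q0 hq; have := abs_nonneg p0; have := abs_nonneg r0; have := abs_nonneg s0
    linarith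
  have br : |r| ≤ M := by
    have := tr r r0 hr; have := abs_nonneg q0; have := abs_nonneg p0; have := abs_nonneg s0
    linarith
  have bs : |s| ≤ M := by
    have := tr s s0 hs; have := abs_nonneg q0; have := abs_nonneg r0; have := abs_nonneg p0
    linarith
  have bp0 : |p0| ≤ M := by
    have := abs_nonneg q0; have := abs_nonneg r0; have := abs_nonneg s0; linarith
  have bq0 : |q0| ≤ M := by
    have := abs_nonneg p0; have := abs_nonneg r0; have := abs_nonneg s0; linarith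
  have hdet : F / 2 ≤ |p * s - q * r| := by
    have h1 : |(p * s - q * r) - (p0 * s0 - q0 * r0)| ≤ 4 * M * ε := by
      have h2 : (p * s - q * r) - (p0 * s0 - q0 * r0)
          = ((p - p0) * s + p0 * (s - s0)) - ((q - q0) * r + q0 * (r - r0)) := by ring
      rw [h2]
      have a1 : |(p - p0) * s| ≤ ε * M := by
        rw [abs_mul]; exact mul_le_mul hp bs (abs_nonneg _) hε0
      have a2 : |p0 * (s - s0)| ≤ M * ε := by
        rw [abs_mul]; exact mul_le_mul bp0 hs (abs_nonneg _) hM0.le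
      have a3 : |(q - q0) * r| ≤ ε * M := by
        rw [abs_mul]; exact mul_le_mul hq br (abs_nonneg _) hε0
      have a4 : |q0 * (r - r0)| ≤ M * ε := by
        rw [abs_mul]; exact mul_le_mul bq0 hr (abs_nonneg _) hM0.le
      calc _ ≤ |(p - p0) * s + p0 * (s - s0)| + |(q - q0) * r + q0 * (r - r0)| := abs_sub _ _
        _ ≤ (|(p - p0) * s| + |p0 * (s - s0)|) + (|(q - q0) * r| + |q0 * (r - r0)|) :=
            add_le_add (abs_add_le _ _) (abs_add_le _ _)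
        _ ≤ _ := by linarith
    have h3 : 4 * M * ε ≤ F / 2 := by
      calc 4 * M * ε ≤ 4 * M * (F / (8 * M)) := by gcongr
        _ = F / 2 := by field_simp; ring
    have h4 : F ≤ |p * s - q * r| + |(p * s - q * r) - (p0 * s0 - q0 * r0)| := by
      rw [hF]
      calc |p0 * s0 - q0 * r0| = |(p * s - q * r) - ((p * s - q * r) - (p0 * s0 - q0 * r0))| := by
            ring_nf
        _ ≤ _ := abs_sub _ _
    linarith
  set A : ℝ := p * x + q * y with hA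
  set B : ℝ := r * x + s * y with hB
  have hx : |p * s - q * r| * |x| ≤ M * (|A| + |B|) := by
    rw [← abs_mul]
    have : (p * s - q * r) * x = s * A - q * B := by rw [hA, hB]; ring
    rw [this]
    calc |s * A - q * B| ≤ |s * A| + |q * B| := abs_sub _ _
      _ = |s| * |A| + |q| * |B| := by rw [abs_mul, abs_mul]
      _ ≤ M * |A| + M * |B| := by gcongr
      _ = _ := by ring
  have hy : |p * s - q * r| * |y| ≤ M * (|A| + |B|) := by
    rw [← abs_mul]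
    have : (p * s - q * r) * y = p * B - r * A := by rw [hA, hB]; ring
    rw [this]
    calc |p * B - r * A| ≤ |p * B| + |r * A| := abs_sub _ _
      _ = |p| * |B| + |r| * |A| := by rw [abs_mul, abs_mul]
      _ ≤ M * |B| + M * |A| := by gcongr
      _ = _ := by ring
  have h5 : F / 2 * (|x| + |y|) ≤ 2 * M * (|A| + |B|) := by
    have : F / 2 * (|x| + |y|) ≤ |p * s - q * r| * (|x| + |y|) := by gcongr
    nlinarith
  have h6 : |x| + |y| = 2 / F * (F / 2 * (|x| + |y|)) := by field_simp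
  rw [h6]
  calc 2 / F * (F / 2 * (|x| + |y|)) ≤ 2 / F * (2 * M * (|A| + |B|)) := by gcongr
    _ = 4 * M / F * (|A| + |B|) := by ring

/-! ### annuli, integrability -/

theorem nd51_open (ρ : ℝ) : IsOpen (ann N ρ) := by
  have : ann N ρ = (fun x : E N => ‖x‖) ⁻¹' (Ioo ρ 1) := rfl
  rw [this]; exact isOpen_Ioo.preimage continuous_norm

theorem nd51_sub (ρ : ℝ) : ann N ρ ⊆ ball (0 : E N) 1 := fun x hx => by
  simpa using hx.2

theorem nd51_td (hN : 3 ≤ N) : 1 ≤ td N ∧ td N ≤ ts N ∧ 1 ≤ ts N := by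
  have h3 : (3 : ℝ) ≤ N := by exact_mod_cast hN
  have a : 1 ≤ td N := by
    unfold td; rw [le_div_iff₀ (by linarith)]; linarith
  have b : td N ≤ ts N := by
    unfold td ts
    rw [div_le_div_iff₀ (by linarith) (by linarith)]; nlinarith
  exact ⟨a, b, a.trans b⟩

/-- `fn w` is integrable -/
theorem nd51_L1 (hN : 3 ≤ N) : ∃ S : ℝ, 0 < S ∧ ∀ (ρ : ℝ) (w : LV N), w ∈ DD (ann N ρ) →
    Integrable (fn w) (volume.restrict (ann N ρ)) ∧ ∫ x in ann N ρ, |fn w x| ≤ S * ‖w‖ := by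
  obtain ⟨S, hS, h⟩ := exists_sob_q (N := N) hN 1 (q := 1) le_rfl (nd51_td hN).2.2
  refine ⟨S, hS, fun ρ w hw => ?_⟩
  obtain ⟨h1, h2⟩ := h w (DD_mono (nd51_sub ρ) hw)
  simp only [Mq, nq, ENNReal.ofReal_one, Measure.restrict_univ] at h1 h2
  have hi : Integrable (fn w) volume := memLp_one_iff_integrable.1 h1
  refine ⟨hi.restrict, ?_⟩
  have h3 : ∫ x in ann N ρ, |fn w x| ≤ ∫ x, |fn w x| :=
    setIntegral_le_integral hi.abs (Eventually.of_forall fun x => abs_nonneg _)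
  refine h3.trans (le_trans (le_of_eq ?_) h2)
  rw [eLpNorm_one_eq_lintegral_enorm, ← integral_norm_eq_lintegral_enorm hi.1]
  rfl

/-- bounded potentials -/
theorem nd51_T (hN : 3 ≤ N) : ∃ S : ℝ, 0 < S ∧ ∀ (ρ K : ℝ) (a : E N → ℝ) (w : LV N), 0 ≤ K →
    AEStronglyMeasurable a (volume.restrict (ann N ρ)) →
    (∀ᵐ x ∂(volume.restrict (ann N ρ)), |a x| ≤ K) → w ∈ DD (ann N ρ) →
    Mq (td N) (ann N ρ) (fun x => a x * fn w x) ∧
      ‖T (ann N ρ) (fun x => a x * fn w x)‖ ≤ S * K * ‖w‖ := by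
  obtain ⟨S, hS, h⟩ := exists_sob_q (N := N) hN 1 (q := td N) (nd51_td hN).1 (nd51_td hN).2.1
  refine ⟨SS N * S, mul_pos SS_pos hS, fun ρ K a w hK ha hb hw => ?_⟩
  obtain ⟨h1, h2⟩ := h w (DD_mono (nd51_sub ρ) hw)
  have hm := (nd51_open (N := N) ρ).measurableSet
  have h1' : Mq (td N) (ann N ρ) (fn w) := Mq_univ58 _ h1
  have h2' : nq (td N) (ann N ρ) (fn w) ≤ S * ‖w‖ := (nq_mono_set58 _ h1).trans h2
  have hle : ∀ᵐ x ∂(volume.restrict (ann N ρ)), ‖a x * fn w x‖ ≤ K * ‖fn w x‖ := by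
    filter_upwards [hb] with x hx
    rw [norm_mul]
    exact mul_le_mul_of_nonneg_right hx (norm_nonneg _)
  have h3 : Mq (td N) (ann N ρ) (fun x => a x * fn w x) :=
    MemLp.of_le_mul h1' (ha.mul (fn_meas w).restrict) hle
  refine ⟨h3, (T_norm hN hm h3).trans ?_⟩
  have h4 : nq (td N) (ann N ρ) (fun x => a x * fn w x) ≤ K * nq (td N) (ann N ρ) (fn w) := by
    unfold nq
    have := eLpNorm_le_mul_eLpNorm_of_ae_le_mul hle (ENNReal.ofReal (td N))
    have h5 := ENNReal.toReal_mono (ENNReal.mul_ne_top ENNReal.ofReal_ne_top h1'.2.ne) this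
    rwa [ENNReal.toReal_mul, ENNReal.toReal_ofReal hK] at h5
  calc SS N * nq (td N) (ann N ρ) (fun x => a x * fn w x) ≤ SS N * (K * (S * ‖w‖)) := by
        have := SS_pos (N := N)
        gcongr
        exact h4.trans (by gcongr)
    _ = _ := by ring

theorem nd51_Mq (hN : 3 ≤ N) {ρ : ℝ} {w : LV N} (hw : w ∈ DD (ann N ρ)) :
    Mq (td N) (ann N ρ) (fn w) := by
  obtain ⟨S, hS, h⟩ := exists_sob_q (N := N) hN 1 (q := td N) (nd51_td hN).1 (nd51_td hN).2.1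
  exact Mq_univ58 _ (h w (DD_mono (nd51_sub ρ) hw)).1

/-- a weak equation paired with an eigenfunction -/
theorem nd51_pair (hN : 3 ≤ N) {ρ B K lk lam' sig : ℝ} {F v v' : LV N} {f a : E N → ℝ}
    (hF : F ∈ DD (ann N ρ)) (hf : fn F =ᵐ[volume] (ann N ρ).indicator f)
    (hB : ∀ x ∈ ann N ρ, |f x| ≤ B)
    (hin : ∀ w ∈ DD (ann N ρ), ⟪F, w⟫ = lk * ∫ x in ann N ρ, f x * fn w x)
    (hv : v ∈ DD (ann N ρ)) (hv' : v' ∈ DD (ann N ρ)) (hK : 0 ≤ K)
    (ha : AEStronglyMeasurable a (volume.restrict (ann N ρ)))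
    (hb : ∀ᵐ x ∂(volume.restrict (ann N ρ)), |a x| ≤ K)
    (hw : Weak (ann N ρ) v (fun x => lam' * fn v x + sig * (a x * fn v' x))) :
    (lk - lam') * ∫ x in ann N ρ, f x * fn v x = sig * ∫ x in ann N ρ, a x * fn v' x * f x := by
  have hm := (nd51_open (N := N) ρ).measurableSet
  obtain ⟨S1, _, hL1⟩ := nd51_L1 (N := N) hN
  obtain ⟨S2, _, hT⟩ := nd51_T (N := N) hN
  have hff : fn F =ᵐ[volume.restrict (ann N ρ)] f := by
    have := ae_restrict_of_ae (s := ann N ρ) hf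
    filter_upwards [this, ae_restrict_mem hm] with x hx hxm
    rw [hx, indicator_of_mem hxm]
  have hfm : AEStronglyMeasurable f (volume.restrict (ann N ρ)) :=
    (fn_meas F).restrict.congr hff
  have hfb : ∀ᵐ x ∂(volume.restrict (ann N ρ)), ‖f x‖ ≤ B := by
    filter_upwards [ae_restrict_mem hm] with x hx using hB x hx
  have hg : Mq (td N) (ann N ρ) (fun x => lam' * fn v x + sig * (a x * fn v' x)) :=
    ((nd51_Mq hN hv).const_mul lam').add (((hT ρ K a v' hK ha hb hv').1).const_mul sig)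
  have h1 := (weak_pair hN hm hg hw hF).2
  have h2 : ∫ x in ann N ρ, (lam' * fn v x + sig * (a x * fn v' x)) * fn F x
      = ∫ x in ann N ρ, (lam' * (f x * fn v x) + sig * (a x * fn v' x * f x)) := by
    refine integral_congr_ae ?_
    filter_upwards [hff] with x hx
    rw [hx]; ring
  have i1 : Integrable (fun x => f x * fn v x) (volume.restrict (ann N ρ)) :=
    (hL1 ρ v hv).1.bdd_mul hfm hfb
  have i2 : Integrable (fun x => a x * fn v' x) (volume.restrict (ann N ρ)) :=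
    (hL1 ρ v' hv').1.bdd_mul ha (by simpa using hb)
  have i3 : Integrable (fun x => a x * fn v' x * f x) (volume.restrict (ann N ρ)) := by
    have := i2.bdd_mul hfm hfb
    refine this.congr (Eventually.of_forall fun x => ?_)
    ring
  rw [h2, integral_add (i1.const_mul _) (i3.const_mul _), integral_const_mul,
    integral_const_mul] at h1
  have h3 := hin v hv
  rw [real_inner_comm] at h3
  rw [h3] at h1
  linarith

/-- perturbation of the nonlinear integrals -/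
theorem nd51_pert {ρ K L G : ℝ} {H : ℝ → ℝ} (hHc : Continuous H) (hK : 0 ≤ K) (hL : 0 ≤ L)
    (hH : ∀ u v : ℝ, |u| ≤ K → |v| ≤ K → |H u - H v| ≤ L * |u - v|) {u v h g : E N → ℝ}
    (hu : AEStronglyMeasurable u (volume.restrict (ann N ρ)))
    (hv : AEStronglyMeasurable v (volume.restrict (ann N ρ)))
    (hg : AEStronglyMeasurable g (volume.restrict (ann N ρ)))
    (hub : ∀ᵐ x ∂(volume.restrict (ann N ρ)), |u x| ≤ K)
    (hvb : ∀ᵐ x ∂(volume.restrict (ann N ρ)), |v x| ≤ K)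
    (hgb : ∀ᵐ x ∂(volume.restrict (ann N ρ)), |g x| ≤ G)
    (hh : Integrable h (volume.restrict (ann N ρ)))
    (huv : ∀ᵐ x ∂(volume.restrict (ann N ρ)), u x - v x = h x) :
    |(∫ x in ann N ρ, H (u x) * g x) - ∫ x in ann N ρ, H (v x) * g x|
      ≤ L * G * ∫ x in ann N ρ, |h x| := by
  have hfin : IsFiniteMeasure (volume.restrict (ann N ρ) : Measure (E N)) :=
    ⟨by rw [Measure.restrict_apply_univ]; exact vol_lt_top58 (nd51_sub ρ)⟩
  have hHb : ∀ t : ℝ, |t| ≤ K → |H t| ≤ |H 0| + L * K := fun t ht => by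
    have h1 := hH t 0 ht (by simpa using hK)
    have h2 : |H t| ≤ |H t - H 0| + |H 0| := by
      calc |H t| = |(H t - H 0) + H 0| := by ring_nf
        _ ≤ _ := abs_add_le _ _
    have h3 : L * |t - 0| ≤ L * K := by rw [sub_zero]; gcongr
    linarith
  have int : ∀ r : E N → ℝ, AEStronglyMeasurable r (volume.restrict (ann N ρ)) →
      (∀ᵐ x ∂(volume.restrict (ann N ρ)), |r x| ≤ K) →
      Integrable (fun x => H (r x) * g x) (volume.restrict (ann N ρ)) := fun r hr hrb => by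
    refine Integrable.of_bound ((hHc.comp_aestronglyMeasurable hr).mul hg)
      ((|H 0| + L * K) * G) ?_
    filter_upwards [hrb, hgb] with x hx hx'
    rw [norm_mul]
    exact mul_le_mul (hHb _ hx) hx' (abs_nonneg _) (by positivity)
  rw [← integral_sub (int u hu hub) (int v hv hvb), ← integral_const_mul]
  refine (abs_integral_le_integral_abs).trans ?_
  refine integral_mono_ae ((int u hu hub).sub (int v hv hvb)).abs (hh.abs.const_mul _) ?_
  filter_upwards [hub, hvb, hgb, huv] with x h1 h2 h3 h4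
  have h5 := hH _ _ h1 h2
  rw [h4] at h5
  have : H (u x) * g x - H (v x) * g x = (H (u x) - H (v x)) * g x := by ring
  simp only [this, abs_mul]
  calc |H (u x) - H (v x)| * |g x| ≤ (L * |h x|) * G := by gcongr
    _ = _ := by ring

theorem nd51_nlK (hN : 3 ≤ N) (hN5 : N ≤ 5) (K : ℝ) (hK : 0 ≤ K) : ∃ L : ℝ, 0 < L ∧
    ∀ u v : ℝ, |u| ≤ K → |v| ≤ K → |nl N u - nl N v| ≤ L * |u - v| := by
  obtain ⟨C, hC, h⟩ := nl_lip hN hN5
  have hp : 0 ≤ pm N := by have := pw_pm_ge hN hN5; linarith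
  refine ⟨C * (2 * K ^ pm N) + 1, by positivity, fun u v hu hv => (h u v).trans ?_⟩
  have a1 : |u| ^ pm N ≤ K ^ pm N := Real.rpow_le_rpow (abs_nonneg _) hu hp
  have a2 : |v| ^ pm N ≤ K ^ pm N := Real.rpow_le_rpow (abs_nonneg _) hv hp
  refine mul_le_mul_of_nonneg_right ?_ (abs_nonneg _)
  nlinarith

theorem nd51_dnlK (hN : 3 ≤ N) (hN5 : N ≤ 5) (K : ℝ) (hK : 0 ≤ K) : ∃ L : ℝ, 0 < L ∧
    ∀ u v : ℝ, |u| ≤ K → |v| ≤ K → |dnl N u - dnl N v| ≤ L * |u - v| := by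
  obtain ⟨C, hC, h⟩ := dnl_lip hN hN5
  have hp : 0 ≤ pm N - 1 := by have := pw_pm_ge hN hN5; linarith
  refine ⟨C * (2 * K ^ (pm N - 1)) + 1, by positivity, fun u v hu hv => (h u v).trans ?_⟩
  have a1 : |u| ^ (pm N - 1) ≤ K ^ (pm N - 1) := Real.rpow_le_rpow (abs_nonneg _) hu hp
  have a2 : |v| ^ (pm N - 1) ≤ K ^ (pm N - 1) := Real.rpow_le_rpow (abs_nonneg _) hv hp
  refine mul_le_mul_of_nonneg_right ?_ (abs_nonneg _)
  nlinarith

/-! ### the eigenfunctions -/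

theorem nd51_F1 (hN : 3 ≤ N) (D : Cr N) {e : E N} (he : ‖e‖ = 1) (i : ℕ) :
    D.F1 e i ∈ XS e (D.rho i) ∧
    fn (D.F1 e i) =ᵐ[volume] (ann N (D.rho i)).indicator (D.f1 e i) ∧
    Weak (ann N (D.rho i)) (D.F1 e i) (fun x => D.lam1 i * D.f1 e i x) ∧
    ∀ w ∈ DD (ann N (D.rho i)), ⟪D.F1 e i, w⟫
      = D.lam1 i * ∫ x in ann N (D.rho i), D.f1 e i x * fn w x := by
  have hz : yf (((0 : ℕ) : ℝ) + cc N) (D.lam1 i) (D.Ls i) = 0 := by simpa using D.z1 i
  obtain ⟨h1, h2, h3⟩ := eig_spec hN he (D.posL i) hz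
  refine ⟨h1, by simpa [Cr.f1, Cr.F1, Cr.rho] using h2, by simpa [Cr.f1, Cr.F1, Cr.rho] using h3,
    fun w hw => ?_⟩
  simpa [Cr.f1, Cr.F1, Cr.rho] using eig_inner hN he (D.posL i) hz hw

theorem nd51_F2 (hN : 3 ≤ N) (D : Cr N) {e : E N} (he : ‖e‖ = 1) (i : ℕ) :
    D.F2 e i ∈ XS e (D.rho i) ∧
    fn (D.F2 e i) =ᵐ[volume] (ann N (D.rho i)).indicator (D.f2 e i) ∧
    Weak (ann N (D.rho i)) (D.F2 e i) (fun x => D.lam2 i * D.f2 e i x) ∧
    ∀ w ∈ DD (ann N (D.rho i)), ⟪D.F2 e i, w⟫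
      = D.lam2 i * ∫ x in ann N (D.rho i), D.f2 e i x * fn w x := by
  obtain ⟨h1, h2, h3⟩ := eig_spec hN he (D.posL i) (D.z2 i)
  exact ⟨h1, h2, h3, fun w hw => eig_inner hN he (D.posL i) (D.z2 i) hw⟩

theorem nd51_XS_DD (hN : 3 ≤ N) {e : E N} {ρ : ℝ} {w : LV N} (h : w ∈ XS e ρ) :
    w ∈ DD (ann N ρ) := ((mem_XS hN).1 h).1

theorem nd51_orth (hN : 3 ≤ N) (D : Cr N) {e : E N} (he : ‖e‖ = 1) (i : ℕ) :
    ⟪D.F1 e i, D.F2 e i⟫ = 0 := by
  obtain ⟨-, -, -, h⟩ := nd51_F1 hN D he i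
  obtain ⟨h1, h2, -, -⟩ := nd51_F2 hN D he i
  rw [h _ (nd51_XS_DD hN h1)]
  have hm := (nd51_open (N := N) (D.rho i)).measurableSet
  have : ∫ x in ann N (D.rho i), D.f1 e i x * fn (D.F2 e i) x
      = ∫ x in ann N (D.rho i), D.f1 e i x * D.f2 e i x := by
    refine integral_congr_ae ?_
    filter_upwards [ae_restrict_of_ae h2, ae_restrict_mem hm] with x hx hxm
    rw [hx, indicator_of_mem hxm]
  rw [this]
  have hl : (0 : ℕ) ≠ D.l := fun h0 => by
    have := D.hl; rw [← h0] at this; exact absurd this (by decide)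
  have hρ : 0 < D.rho i := Real.exp_pos _
  have hρ1 : D.rho i < 1 := by
    unfold Cr.rho; rw [Real.exp_lt_one_iff]; have := D.posL i; linarith
  have := cyl_orth (N := N) hN he hρ hρ1 hl (y := yf (cc N) (D.lam1 i))
    (z := yf (D.l + cc N) (D.lam2 i)) (yf_contDiff _ _).continuous (yf_contDiff _ _).continuous
  unfold Cr.f1 Cr.f2
  rw [this, mul_zero]

/-- the orthogonal part of a solution of the linearised equation is small -/
theorem nd51_lin (hN : 3 ≤ N) {e : E N} {ρ m K S l1 l2 lam' sig : ℝ} (hm : 0 < m)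
    (hsig : 0 ≤ sig) (hl1 : 0 < l1) (hl2 : 0 < l2)
    {F1 F2 w : LV N} {f1 f2 a : E N → ℝ} (hF1 : F1 ∈ XS e ρ) (hF2 : F2 ∈ XS e ρ)
    (hf1 : fn F1 =ᵐ[volume] (ann N ρ).indicator f1)
    (hf2 : fn F2 =ᵐ[volume] (ann N ρ).indicator f2)
    (hW1 : Weak (ann N ρ) F1 (fun x => l1 * f1 x)) (hW2 : Weak (ann N ρ) F2 (fun x => l2 * f2 x))
    (h12 : ⟪F1, F2⟫ = 0) (hn1 : ‖F1‖ ≠ 0) (hn2 : ‖F2‖ ≠ 0)
    (hLL : ∀ w ∈ XS e ρ, ∀ c1 c2 : ℝ,
      m * (‖w‖ + |c1| + |c2|) ≤ ‖w - lam' • T (ann N ρ) (fn w) - c1 • F1 - c2 • F2‖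
        + |⟪F1, w⟫| + |⟪F2, w⟫|)
    (hT : ∀ w ∈ DD (ann N ρ), Mq (td N) (ann N ρ) (fun x => a x * fn w x) ∧
      ‖T (ann N ρ) (fun x => a x * fn w x)‖ ≤ S * K * ‖w‖)
    (hw : w ∈ XS e ρ)
    (hweq : Weak (ann N ρ) w (fun x => lam' * fn w x + sig * (a x * fn w x))) :
    ∃ (x1 x2 : ℝ) (w' : LV N), w' ∈ XS e ρ ∧ w = x1 • F1 + x2 • F2 + w' ∧ ⟪F1, w'⟫ = 0 ∧
      ⟪F2, w'⟫ = 0 ∧ m * ‖w'‖ ≤ sig * (S * K) * ‖w‖ := by
  have hms := (nd51_open (N := N) ρ).measurableSet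
  have h21 : ⟪F2, F1⟫ = 0 := by rw [real_inner_comm]; exact h12
  have n1 : ⟪F1, F1⟫ ≠ 0 := by
    rw [real_inner_self_eq_norm_sq]; positivity
  have n2 : ⟪F2, F2⟫ ≠ 0 := by
    rw [real_inner_self_eq_norm_sq]; positivity
  set x1 : ℝ := ⟪F1, w⟫ / ⟪F1, F1⟫ with hx1
  set x2 : ℝ := ⟪F2, w⟫ / ⟪F2, F2⟫ with hx2
  set w' : LV N := w - x1 • F1 - x2 • F2 with hw'
  have hw'm : w' ∈ XS e ρ :=
    (XS e ρ).sub_mem ((XS e ρ).sub_mem hw ((XS e ρ).smul_mem _ hF1)) ((XS e ρ).smul_mem _ hF2)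
  have o1 : ⟪F1, w'⟫ = 0 := by
    rw [hw', inner_sub_right, inner_sub_right, inner_smul_right, inner_smul_right, h12, hx1]
    field_simp; ring
  have o2 : ⟪F2, w'⟫ = 0 := by
    rw [hw', inner_sub_right, inner_sub_right, inner_smul_right, inner_smul_right, h21, hx2]
    field_simp; ring
  refine ⟨x1, x2, w', hw'm, by rw [hw']; abel, o1, o2, ?_⟩
  have dw := nd51_XS_DD hN hw
  have d1 := nd51_XS_DD hN hF1
  have d2 := nd51_XS_DD hN hF2
  -- `T (fn F_k) = λ_k⁻¹ F_k`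
  have key : ∀ (F : LV N) (f : E N → ℝ) (l : ℝ), 0 < l → F ∈ DD (ann N ρ) →
      fn F =ᵐ[volume] (ann N ρ).indicator f → Weak (ann N ρ) F (fun x => l * f x) →
      T (ann N ρ) (fn F) = l⁻¹ • F := by
    intro F f l hl hF hf hW
    have hff : ∀ᵐ x, x ∈ ann N ρ → fn F x = f x := by
      filter_upwards [hf] with x hx hxm
      rw [hx, indicator_of_mem hxm]
    have hMf : Mq (td N) (ann N ρ) f := by
      refine (nd51_Mq hN hF).ae_eq ?_
      exact (ae_restrict_iff' hms).2 hff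
    have h1 : F = l • T (ann N ρ) f := by
      rw [← T_smul hN hms l hMf]
      exact (weak_iff_T hN hms (hMf.const_mul l)).1 hW
    have h2 : T (ann N ρ) (fn F) = T (ann N ρ) f := T_congr hms hff
    rw [h2]
    conv_rhs => rw [h1]
    rw [smul_smul, inv_mul_cancel₀ hl.ne', one_smul]
  have k1 := key F1 f1 l1 hl1 d1 hf1 hW1
  have k2 := key F2 f2 l2 hl2 d2 hf2 hW2
  have M0 := nd51_Mq hN dw
  have M1 := nd51_Mq hN d1
  have M2 := nd51_Mq hN d2
  have Ma := (hT w dw).1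
  have e1 : T (ann N ρ) (fn w')
      = T (ann N ρ) (fn w) - x1 • (l1⁻¹ • F1) - x2 • (l2⁻¹ • F2) := by
    have u0 := DD_le_univ58 _ dw
    have u1 := DD_le_univ58 _ d1
    have u2 := DD_le_univ58 _ d2
    have c1 : fn w' =ᵐ[volume] fun x => (fn w x - x1 * fn F1 x) - x2 * fn F2 x := by
      have b1 := fn_sub hN (Submodule.sub_mem _ u0 (Submodule.smul_mem _ x1 u1))
        (Submodule.smul_mem _ x2 u2)
      have b2 := fn_sub hN u0 (Submodule.smul_mem _ x1 u1)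
      have b3 := fn_smul hN x1 u1
      have b4 := fn_smul hN x2 u2
      filter_upwards [b1, b2, b3, b4] with x h1 h2 h3 h4
      rw [hw', h1, h2, h3, h4]
    have c2 : T (ann N ρ) (fn w')
        = T (ann N ρ) (fun x => (fn w x - x1 * fn F1 x) - x2 * fn F2 x) :=
      T_congr hms (by filter_upwards [c1] with x hx _ using hx)
    have M01 : Mq (td N) (ann N ρ) (fun x => fn w x - x1 * fn F1 x) := M0.sub (M1.const_mul x1)
    rw [c2, T_sub hN hms M01 (M2.const_mul x2),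
      T_sub hN hms M0 (M1.const_mul x1), T_smul hN hms x1 M1, T_smul hN hms x2 M2, k1, k2]
  have e2 : w = lam' • T (ann N ρ) (fn w) + sig • T (ann N ρ) (fun x => a x * fn w x) := by
    have h1 := (weak_iff_T hN hms ((M0.const_mul lam').add (Ma.const_mul sig))).1 hweq
    have h2 : T (ann N ρ) (fun x => lam' * fn w x + sig * (a x * fn w x))
        = lam' • T (ann N ρ) (fn w) + sig • T (ann N ρ) (fun x => a x * fn w x) := by
      rw [T_add hN hms (M0.const_mul lam') (Ma.const_mul sig), T_smul hN hms lam' M0,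
        T_smul hN hms sig Ma]
    rw [← h2]; exact h1
  have h3 := hLL w' hw'm (-(x1 * (1 - lam' * l1⁻¹))) (-(x2 * (1 - lam' * l2⁻¹)))
  have e3 : w' - lam' • T (ann N ρ) (fn w') - (-(x1 * (1 - lam' * l1⁻¹))) • F1
      - (-(x2 * (1 - lam' * l2⁻¹))) • F2 = sig • T (ann N ρ) (fun x => a x * fn w x) := by
    have e4 : sig • T (ann N ρ) (fun x => a x * fn w x) = w - lam' • T (ann N ρ) (fn w) := by
      nth_rewrite 2 [e2]; abel
    rw [e4, e1, hw']
    module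
  rw [e3, o1, o2, abs_zero, add_zero, add_zero, norm_smul, Real.norm_of_nonneg hsig] at h3
  have h4 := (hT w dw).2
  have h5 : sig * ‖T (ann N ρ) (fun x => a x * fn w x)‖ ≤ sig * (S * K * ‖w‖) := by gcongr
  have h6 : m * ‖w'‖ ≤ m * (‖w'‖ + |(-(x1 * (1 - lam' * l1⁻¹)))| + |(-(x2 * (1 - lam' * l2⁻¹)))|) := by
    have := abs_nonneg (-(x1 * (1 - lam' * l1⁻¹)))
    have := abs_nonneg (-(x2 * (1 - lam' * l2⁻¹)))
    refine mul_le_mul_of_nonneg_left ?_ hm.le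
    linarith
  calc m * ‖w'‖ ≤ _ := h6
    _ ≤ _ := h3
    _ ≤ _ := h5
    _ = _ := by ring

/-- the `2 × 2` system -/
theorem nd51_sys (hN : 3 ≤ N) (hN5 : N ≤ 5) {ρ B K l1 l2 lam' sig b x1 x2 : ℝ} (hK : 0 ≤ K)
    (hsig : 0 < sig) (hl1 : 0 < l1) (hl2 : 0 < l2)
    {F1 F2 U om w w' : LV N} {f1 f2 : E N → ℝ}
    (hF1 : F1 ∈ DD (ann N ρ)) (hF2 : F2 ∈ DD (ann N ρ))
    (hf1 : fn F1 =ᵐ[volume] (ann N ρ).indicator f1)
    (hf2 : fn F2 =ᵐ[volume] (ann N ρ).indicator f2)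
    (hB1 : ∀ x ∈ ann N ρ, |f1 x| ≤ B) (hB2 : ∀ x ∈ ann N ρ, |f2 x| ≤ B)
    (hin1 : ∀ w ∈ DD (ann N ρ), ⟪F1, w⟫ = l1 * ∫ x in ann N ρ, f1 x * fn w x)
    (hin2 : ∀ w ∈ DD (ann N ρ), ⟪F2, w⟫ = l2 * ∫ x in ann N ρ, f2 x * fn w x)
    (h12 : ⟪F1, F2⟫ = 0)
    (hom : om ∈ DD (ann N ρ)) (hU : U = F1 + b • F2 + om) (ho1 : ⟪F1, om⟫ = 0)
    (ho2 : ⟪F2, om⟫ = 0) (hUb : ∀ᵐ x, |fn U x| ≤ K)
    (hUeq : Weak (ann N ρ) U (fun x => lam' * fn U x + sig * nl N (fn U x)))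
    (hw'm : w' ∈ DD (ann N ρ)) (hw : w = x1 • F1 + x2 • F2 + w') (hw1 : ⟪F1, w'⟫ = 0)
    (hw2 : ⟪F2, w'⟫ = 0)
    (hweq : Weak (ann N ρ) w (fun x => lam' * fn w x + sig * (dnl N (fn U x) * fn w x))) :
    ((∫ x in ann N ρ, nl N (fn U x) * f1 x) - ∫ x in ann N ρ, dnl N (fn U x) * (f1 x * f1 x)) * x1
      + (-∫ x in ann N ρ, dnl N (fn U x) * (f1 x * f2 x)) * x2
      = ∫ x in ann N ρ, dnl N (fn U x) * fn w' x * f1 x ∧
    (-(b * ∫ x in ann N ρ, dnl N (fn U x) * (f1 x * f2 x))) * x1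
      + ((∫ x in ann N ρ, nl N (fn U x) * f2 x)
        - b * ∫ x in ann N ρ, dnl N (fn U x) * (f2 x * f2 x)) * x2
      = b * ∫ x in ann N ρ, dnl N (fn U x) * fn w' x * f2 x := by
  have hms := (nd51_open (N := N) ρ).measurableSet
  obtain ⟨Ld, hLd, hdl⟩ := nd51_dnlK hN hN5 K hK
  obtain ⟨S1, _, hL1⟩ := nd51_L1 (N := N) hN
  have h21 : ⟪F2, F1⟫ = 0 := by rw [real_inner_comm]; exact h12
  have hUm : U ∈ DD (ann N ρ) := by
    rw [hU]
    exact Submodule.add_mem _ (Submodule.add_mem _ hF1 (Submodule.smul_mem _ _ hF2)) hom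
  have hwm : w ∈ DD (ann N ρ) := by
    rw [hw]
    exact Submodule.add_mem _ (Submodule.add_mem _ (Submodule.smul_mem _ _ hF1)
      (Submodule.smul_mem _ _ hF2)) hw'm
  have hpm : 0 ≤ pm N := by have := pw_pm_ge hN hN5; linarith
  -- the two potentials
  have a1m : AEStronglyMeasurable (fun x => |fn U x| ^ pm N) (volume.restrict (ann N ρ)) :=
    ((continuous_abs.rpow_const (fun _ => Or.inr hpm)).comp_aestronglyMeasurable
      (fn_meas U)).restrict
  have a1b : ∀ᵐ x ∂(volume.restrict (ann N ρ)), |(|fn U x| ^ pm N)| ≤ K ^ pm N := by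
    filter_upwards [ae_restrict_of_ae hUb] with x hx
    rw [abs_of_nonneg (Real.rpow_nonneg (abs_nonneg _) _)]
    exact Real.rpow_le_rpow (abs_nonneg _) hx hpm
  have a2m : AEStronglyMeasurable (fun x => dnl N (fn U x)) (volume.restrict (ann N ρ)) :=
    ((continuous_dnl hN hN5).comp_aestronglyMeasurable (fn_meas U)).restrict
  have K2 : ∀ t : ℝ, |t| ≤ K → |dnl N t| ≤ |dnl N 0| + Ld * K := fun t ht => by
    have h1 := hdl t 0 ht (by simpa using hK)
    have h2 : |dnl N t| ≤ |dnl N t - dnl N 0| + |dnl N 0| := by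
      calc |dnl N t| = |(dnl N t - dnl N 0) + dnl N 0| := by ring_nf
        _ ≤ _ := abs_add_le _ _
    have h3 : Ld * |t - 0| ≤ Ld * K := by rw [sub_zero]; gcongr
    linarith
  set Kd : ℝ := |dnl N 0| + Ld * K with hKd
  have hKd0 : 0 ≤ Kd := by positivity
  have a2b : ∀ᵐ x ∂(volume.restrict (ann N ρ)), |dnl N (fn U x)| ≤ Kd := by
    filter_upwards [ae_restrict_of_ae hUb] with x hx using K2 _ hx
  -- pairings
  have p1 := nd51_pair hN hF1 hf1 hB1 hin1 hwm hwm hKd0 a2m a2b hweq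
  have p2 := nd51_pair hN hF2 hf2 hB2 hin2 hwm hwm hKd0 a2m a2b hweq
  have hUeq' : Weak (ann N ρ) U
      (fun x => lam' * fn U x + sig * ((fun y => |fn U y| ^ pm N) x * fn U x)) := hUeq
  have p3 := nd51_pair hN hF1 hf1 hB1 hin1 hUm hUm (by positivity) a1m a1b hUeq'
  have p4 := nd51_pair hN hF2 hf2 hB2 hin2 hUm hUm (by positivity) a1m a1b hUeq'
  have p3' : (l1 - lam') * ∫ x in ann N ρ, f1 x * fn U x
      = sig * ∫ x in ann N ρ, nl N (fn U x) * f1 x := p3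
  have p4' : (l2 - lam') * ∫ x in ann N ρ, f2 x * fn U x
      = sig * ∫ x in ann N ρ, nl N (fn U x) * f2 x := p4
  -- inner products
  have q1 : ⟪F1, w⟫ = x1 * ⟪F1, F1⟫ := by
    rw [hw, inner_add_right, inner_add_right, inner_smul_right, inner_smul_right, h12, hw1]; ring
  have q2 : ⟪F2, w⟫ = x2 * ⟪F2, F2⟫ := by
    rw [hw, inner_add_right, inner_add_right, inner_smul_right, inner_smul_right, h21, hw2]; ring
  have q3 : ⟪F1, U⟫ = ⟪F1, F1⟫ := by
    rw [hU, inner_add_right, inner_add_right, inner_smul_right, h12, ho1]; ring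
  have q4 : ⟪F2, U⟫ = b * ⟪F2, F2⟫ := by
    rw [hU, inner_add_right, inner_add_right, inner_smul_right, h21, ho2]; ring
  have r1 : (∫ x in ann N ρ, f1 x * fn w x) = x1 * ∫ x in ann N ρ, f1 x * fn U x := by
    have := hin1 w hwm
    have h2 := hin1 U hUm
    rw [q1] at this; rw [q3] at h2; rw [h2] at this
    have h3 : l1 * ∫ x in ann N ρ, f1 x * fn w x = l1 * (x1 * ∫ x in ann N ρ, f1 x * fn U x) := by
      linarith
    exact mul_left_cancel₀ hl1.ne' h3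
  have r2 : b * (∫ x in ann N ρ, f2 x * fn w x) = x2 * ∫ x in ann N ρ, f2 x * fn U x := by
    have h1 := hin2 w hwm
    have h2 := hin2 U hUm
    rw [q2] at h1; rw [q4] at h2
    have h3 : l2 * (b * ∫ x in ann N ρ, f2 x * fn w x)
        = l2 * (x2 * ∫ x in ann N ρ, f2 x * fn U x) := by
      linear_combination (-b) * h1 + x2 * h2
    exact mul_left_cancel₀ hl2.ne' h3
  have s1 : x1 * (∫ x in ann N ρ, nl N (fn U x) * f1 x)
      = ∫ x in ann N ρ, dnl N (fn U x) * fn w x * f1 x := by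
    have : sig * (x1 * (∫ x in ann N ρ, nl N (fn U x) * f1 x))
        = sig * ∫ x in ann N ρ, dnl N (fn U x) * fn w x * f1 x := by
      rw [← p1, r1]; linear_combination (-x1) * p3'
    exact mul_left_cancel₀ hsig.ne' this
  have s2 : x2 * (∫ x in ann N ρ, nl N (fn U x) * f2 x)
      = b * ∫ x in ann N ρ, dnl N (fn U x) * fn w x * f2 x := by
    have : sig * (x2 * (∫ x in ann N ρ, nl N (fn U x) * f2 x))
        = sig * (b * ∫ x in ann N ρ, dnl N (fn U x) * fn w x * f2 x) := by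
      linear_combination (-x2) * p4' + b * p2 - (l2 - lam') * r2
    exact mul_left_cancel₀ hsig.ne' this
  -- expansion of `fn w`
  have ff : ∀ (F : LV N) (f : E N → ℝ), fn F =ᵐ[volume] (ann N ρ).indicator f →
      fn F =ᵐ[volume.restrict (ann N ρ)] f := fun F f hf => by
    filter_upwards [ae_restrict_of_ae hf, ae_restrict_mem hms] with x hx hxm
    rw [hx, indicator_of_mem hxm]
  have fw : fn w =ᵐ[volume.restrict (ann N ρ)] fun x => x1 * f1 x + x2 * f2 x + fn w' x := by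
    have u1 := DD_le_univ58 _ hF1
    have u2 := DD_le_univ58 _ hF2
    have u3 := DD_le_univ58 _ hw'm
    have b1 := fn_add hN (Submodule.add_mem _ (Submodule.smul_mem _ x1 u1)
      (Submodule.smul_mem _ x2 u2)) u3
    have b2 := fn_add hN (Submodule.smul_mem _ x1 u1) (Submodule.smul_mem _ x2 u2)
    have b3 := fn_smul hN x1 u1
    have b4 := fn_smul hN x2 u2
    filter_upwards [ae_restrict_of_ae b1, ae_restrict_of_ae b2, ae_restrict_of_ae b3,
      ae_restrict_of_ae b4, ff _ _ hf1, ff _ _ hf2] with x h1 h2 h3 h4 h5 h6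
    rw [hw, h1, h2, h3, h4, h5, h6]
  have f1m : AEStronglyMeasurable f1 (volume.restrict (ann N ρ)) :=
    (fn_meas F1).restrict.congr (ff _ _ hf1)
  have f2m : AEStronglyMeasurable f2 (volume.restrict (ann N ρ)) :=
    (fn_meas F2).restrict.congr (ff _ _ hf2)
  have f1b : ∀ᵐ x ∂(volume.restrict (ann N ρ)), ‖f1 x‖ ≤ B := by
    filter_upwards [ae_restrict_mem hms] with x hx using hB1 x hx
  have f2b : ∀ᵐ x ∂(volume.restrict (ann N ρ)), ‖f2 x‖ ≤ B := by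
    filter_upwards [ae_restrict_mem hms] with x hx using hB2 x hx
  have hfin : IsFiniteMeasure (volume.restrict (ann N ρ) : Measure (E N)) :=
    ⟨by rw [Measure.restrict_apply_univ]; exact vol_lt_top58 (nd51_sub ρ)⟩
  have expand : ∀ f : E N → ℝ, AEStronglyMeasurable f (volume.restrict (ann N ρ)) →
      (∀ᵐ x ∂(volume.restrict (ann N ρ)), ‖f x‖ ≤ B) →
      ∫ x in ann N ρ, dnl N (fn U x) * fn w x * f x
        = x1 * (∫ x in ann N ρ, dnl N (fn U x) * (f1 x * f x))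
          + x2 * (∫ x in ann N ρ, dnl N (fn U x) * (f2 x * f x))
          + ∫ x in ann N ρ, dnl N (fn U x) * fn w' x * f x := by
    intro f hfm hfb
    have t : ∀ g : E N → ℝ, AEStronglyMeasurable g (volume.restrict (ann N ρ)) →
        (∀ᵐ x ∂(volume.restrict (ann N ρ)), ‖g x‖ ≤ B) →
        Integrable (fun x => dnl N (fn U x) * (g x * f x)) (volume.restrict (ann N ρ)) := by
      intro g hgm hgb
      refine Integrable.of_bound (a2m.mul (hgm.mul hfm)) (Kd * (B * B)) ?_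
      filter_upwards [a2b, hfb, hgb] with x h1 h2 h3
      have hB0 : 0 ≤ B := (norm_nonneg _).trans h2
      rw [norm_mul, norm_mul]
      exact mul_le_mul h1 (mul_le_mul h3 h2 (norm_nonneg _) hB0) (by positivity) hKd0
    have t3 : Integrable (fun x => dnl N (fn U x) * fn w' x * f x)
        (volume.restrict (ann N ρ)) := by
      have i2 : Integrable (fun x => dnl N (fn U x) * fn w' x) (volume.restrict (ann N ρ)) :=
        (hL1 ρ w' hw'm).1.bdd_mul a2m (by simpa using a2b)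
      have := i2.bdd_mul hfm hfb
      refine this.congr (Eventually.of_forall fun x => ?_)
      ring
    have e1 : ∫ x in ann N ρ, dnl N (fn U x) * fn w x * f x
        = ∫ x in ann N ρ, ((x1 * (dnl N (fn U x) * (f1 x * f x))
          + x2 * (dnl N (fn U x) * (f2 x * f x))) + dnl N (fn U x) * fn w' x * f x) := by
      refine integral_congr_ae ?_
      filter_upwards [fw] with x hx
      rw [hx]; ring
    have t12 : Integrable (fun x => x1 * (dnl N (fn U x) * (f1 x * f x))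
        + x2 * (dnl N (fn U x) * (f2 x * f x))) (volume.restrict (ann N ρ)) :=
      ((t f1 f1m f1b).const_mul x1).add ((t f2 f2m f2b).const_mul x2)
    rw [e1, integral_add t12 t3,
      integral_add ((t f1 f1m f1b).const_mul x1) ((t f2 f2m f2b).const_mul x2),
      integral_const_mul, integral_const_mul]
  have e1 := expand f1 f1m f1b
  have e2 := expand f2 f2m f2b
  have e3 : (∫ x in ann N ρ, dnl N (fn U x) * (f2 x * f1 x))
      = ∫ x in ann N ρ, dnl N (fn U x) * (f1 x * f2 x) := by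
    congr 1; ext x; ring
  rw [e3] at e1
  constructor
  · linear_combination s1 + e1
  · linear_combination s2 + b * e2

/-! ### convergence of the coefficients -/

theorem nd51_conv (hN : 3 ≤ N) (D : Cr N) {e : E N} {κ : ℝ} (hκ : 0 < κ)
    (hconf : ∀ (L : ℝ) (l : ℕ) (y z : ℝ → ℝ) (G : ℝ → ℝ → ℝ), 0 < L → Continuous y →
      Continuous z → Continuous (fun p : ℝ × ℝ => G p.1 p.2) →
      (∀ τ u v : ℝ, 0 < τ → G (τ * u) (τ * v) = τ ^ ts N * G u v) →
      ∫ x in ann N (Real.exp (-L)), G (cyl N e y (Pz N 0) x) (cyl N e z (Pz N l) x)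
        = κ * cI N l y z L G)
    {G : ℝ → ℝ → ℝ → ℝ} (hG : Continuous (fun p : ℝ × ℝ × ℝ => G p.1 p.2.1 p.2.2))
    (hh : ∀ b τ u v : ℝ, 0 < τ → G b (τ * u) (τ * v) = τ ^ ts N * G b u v) :
    ∀ ε > 0, ∃ δ > 0, ∀ᶠ i in atTop, ∀ b : ℝ, |b + 1| < δ →
      |(∫ x in ann N (D.rho i), G b (D.f1 e i x) (D.f2 e i x))
        - κ * cI N D.l (yf (cc N) D.lam) (yf (D.l + cc N) D.lam) D.L (G (-1))| < ε := by
  intro ε hε
  obtain ⟨δ, hδ, h⟩ := cI_tendsto hN D hG (b := -1) (ε / κ) (div_pos hε hκ)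
  refine ⟨δ, hδ, ?_⟩
  filter_upwards [h] with i hi b hb
  have hc : Continuous (fun p : ℝ × ℝ => G b p.1 p.2) :=
    hG.comp (continuous_const.prodMk continuous_id)
  have h1 := hconf (D.Ls i) D.l (yf (cc N) (D.lam1 i)) (yf (D.l + cc N) (D.lam2 i)) (G b)
    (D.posL i) (yf_contDiff _ _).continuous (yf_contDiff _ _).continuous hc (hh b)
  have h2 := hi b (by rwa [sub_neg_eq_add])
  unfold Cr.f1 Cr.f2 Cr.rho
  rw [h1, ← mul_sub, abs_mul, abs_of_pos hκ]
  rw [lt_div_iff₀ hκ] at h2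
  linarith

/-- homogeneity -/
theorem nd51_ts (hN : 3 ≤ N) : ts N = pm N + 2 := by
  have h3 : (3 : ℝ) ≤ N := by exact_mod_cast hN
  unfold ts pm
  have : (N : ℝ) - 2 ≠ 0 := by linarith
  field_simp; ring

theorem nd51_hom1 (hN : 3 ≤ N) (b τ u v w : ℝ) (hτ : 0 < τ) :
    nl N (τ * u + b * (τ * v)) * (τ * w) = τ ^ ts N * (nl N (u + b * v) * w) := by
  have : τ * u + b * (τ * v) = τ * (u + b * v) := by ring
  rw [this, nl_mul _ _ hτ, nd51_ts hN]
  have h2 : τ ^ (pm N + 2) = τ ^ (pm N + 1) * τ := by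
    rw [show pm N + 2 = (pm N + 1) + 1 by ring, Real.rpow_add_one hτ.ne']
  rw [h2]; ring

theorem nd51_hom2 (hN : 3 ≤ N) (b τ u v w z : ℝ) (hτ : 0 < τ) :
    dnl N (τ * u + b * (τ * v)) * (τ * w * (τ * z)) = τ ^ ts N * (dnl N (u + b * v) * (w * z)) := by
  have : τ * u + b * (τ * v) = τ * (u + b * v) := by ring
  rw [this, nd51_ts hN]
  unfold dnl
  rw [abs_mul, abs_of_pos hτ, Real.mul_rpow hτ.le (abs_nonneg _)]
  have h2 : τ ^ (pm N + 2) = τ ^ pm N * τ * τ := by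
    rw [show pm N + 2 = (pm N + 1) + 1 by ring, Real.rpow_add_one hτ.ne', Real.rpow_add_one hτ.ne']
  rw [h2]; ring

theorem nd51_R {ρ A B : ℝ} {a f h : E N → ℝ}
    (ha : ∀ᵐ x ∂(volume.restrict (ann N ρ)), |a x| ≤ A)
    (hf : ∀ᵐ x ∂(volume.restrict (ann N ρ)), |f x| ≤ B)
    (hA : 0 ≤ A) (hh : Integrable h (volume.restrict (ann N ρ))) :
    |∫ x in ann N ρ, a x * h x * f x| ≤ A * B * ∫ x in ann N ρ, |h x| := by
  rw [← integral_const_mul, ← Real.norm_eq_abs]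
  refine norm_integral_le_of_norm_le (hh.abs.const_mul _) ?_
  filter_upwards [ha, hf] with x h1 h2
  rw [Real.norm_eq_abs, abs_mul, abs_mul]
  have h3 : |a x| * |h x| * |f x| = (|a x| * |f x|) * |h x| := by ring
  rw [h3]
  refine mul_le_mul_of_nonneg_right ?_ (abs_nonneg _)
  exact mul_le_mul h1 h2 (abs_nonneg _) hA

theorem nd51_fin {X W W' B c1 c2 P sig k : ℝ} (hX : 0 ≤ X) (hW' : 0 ≤ W') (hB : 0 < B)
    (hc1 : 0 ≤ c1) (hP : 0 ≤ P) (hs : 0 < sig) (hsk : sig ≤ k) (h1 : W' ≤ sig * c1 * W)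
    (h2 : W ≤ B * X + W') (h3 : X ≤ P * W') (hc2 : c2 = P * (2 * B * c1))
    (hk1 : k * (2 * (c1 + 1)) ≤ 1) (hk2 : k * (2 * (c2 + 1)) ≤ 1) (hW : 0 ≤ W) :
    X = 0 ∧ W' = 0 := by
  have hk : 0 < k := hs.trans_le hsk
  have a1 : sig * c1 ≤ 1 / 2 := by nlinarith
  have hc2' : 0 ≤ c2 := by rw [hc2]; positivity
  have a2 : sig * c2 ≤ 1 / 2 - sig := by nlinarith
  have a3 : W ≤ 2 * B * X := by nlinarith
  have a4 : W' ≤ sig * c1 * (2 * B * X) := h1.trans (by gcongr)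
  have a5 : X ≤ sig * c2 * X := by
    calc X ≤ P * W' := h3
      _ ≤ P * (sig * c1 * (2 * B * X)) := by gcongr
      _ = sig * c2 * X := by rw [hc2]; ring
  have hX0 : X = 0 := by
    by_contra hne
    have hXp : 0 < X := lt_of_le_of_ne hX (Ne.symm hne)
    have : sig * c2 * X ≤ (1 / 2 - sig) * X := by gcongr
    nlinarith
  refine ⟨hX0, le_antisymm ?_ hW'⟩
  rw [hX0] at a4; simpa using a4

/-! ### the theorem -/

theorem nd51_contH {H : ℝ → ℝ} (hH : Continuous H) {P : ℝ → ℝ → ℝ}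
    (hP : Continuous (fun p : ℝ × ℝ => P p.1 p.2)) :
    Continuous (fun p : ℝ × ℝ × ℝ => H (p.2.1 + p.1 * p.2.2) * P p.2.1 p.2.2) := by
  have h1 : Continuous (fun p : ℝ × ℝ × ℝ => P p.2.1 p.2.2) := hP.comp continuous_snd
  exact (hH.comp (by fun_prop)).mul h1

/-- the core, for one annulus, with explicit constants -/
theorem nd51_core (hN : 3 ≤ N) (hN5 : N ≤ 5) {e : E N}
    {ρ B m S1 S2 K Ln Ld Kd G c1 P c2 Q R η k ε K0 A1 A2 A11 A12 A22 Cp l1 l2 : ℝ}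
    (hB : 0 < B) (hm : 0 < m) (hS1 : 0 < S1)
    (hL1 : ∀ (w : LV N), w ∈ DD (ann N ρ) →
      Integrable (fn w) (volume.restrict (ann N ρ)) ∧ ∫ x in ann N ρ, |fn w x| ≤ S1 * ‖w‖)
    (hT : ∀ (a : E N → ℝ) (w : LV N),
      AEStronglyMeasurable a (volume.restrict (ann N ρ)) →
      (∀ᵐ x ∂(volume.restrict (ann N ρ)), |a x| ≤ Kd) → w ∈ DD (ann N ρ) →
      Mq (td N) (ann N ρ) (fun x => a x * fn w x) ∧
        ‖T (ann N ρ) (fun x => a x * fn w x)‖ ≤ S2 * Kd * ‖w‖)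
    (hCp : 0 ≤ Cp) (hKdef : K = Cp + 3 * B) (hK : 0 < K) (hLn : 0 < Ln) (hLd : 0 < Ld)
    (hnl : ∀ u v : ℝ, |u| ≤ K → |v| ≤ K → |nl N u - nl N v| ≤ Ln * |u - v|)
    (hdnl : ∀ u v : ℝ, |u| ≤ K → |v| ≤ K → |dnl N u - dnl N v| ≤ Ld * |u - v|)
    (hKd : Kd = |dnl N 0| + Ld * K) (hKd0 : 0 < Kd)
    (hε : 0 < ε) (hK0 : 0 < K0)
    (hmat : ∀ p q r s x y : ℝ, |p - (A1 - A11)| ≤ ε → |q - (-A12)| ≤ ε → |r - A12| ≤ ε →
      |s - (A2 + A22)| ≤ ε → |x| + |y| ≤ K0 * (|p * x + q * y| + |r * x + s * y|))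
    (hG : G = B + B * B) (hc1def : c1 = S2 * Kd / m) (hc10 : 0 ≤ c1)
    (hP : P = K0 * (3 * (Kd * B * S1))) (hP0 : 0 ≤ P) (hc2def : c2 = P * (2 * B * c1))
    (hQ : Q = (Ln + Ld) * G * (S1 * Cp))
    (hR : R = |A12| + |A22|) (hR0 : 0 ≤ R)
    (hη1 : η ≤ 1 / 2) (hη2 : η * (8 * (R + 1)) ≤ ε)
    (hkpos : 0 < k) (hk1 : k * (2 * (c1 + 1)) ≤ 1) (hk2 : k * (2 * (c2 + 1)) ≤ 1)
    (hk3 : k * (8 * (Q + 1)) ≤ ε)
    {F1 F2 om w U : LV N} {f1 f2 : E N → ℝ} {b sig lam' : ℝ}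
    (x1m : F1 ∈ XS e ρ) (x2m : F2 ∈ XS e ρ)
    (x1f : fn F1 =ᵐ[volume] (ann N ρ).indicator f1)
    (x2f : fn F2 =ᵐ[volume] (ann N ρ).indicator f2)
    (x1W : Weak (ann N ρ) F1 (fun x => l1 * f1 x)) (x2W : Weak (ann N ρ) F2 (fun x => l2 * f2 x))
    (x1in : ∀ w ∈ DD (ann N ρ), ⟪F1, w⟫ = l1 * ∫ x in ann N ρ, f1 x * fn w x)
    (x2in : ∀ w ∈ DD (ann N ρ), ⟪F2, w⟫ = l2 * ∫ x in ann N ρ, f2 x * fn w x)
    (h12 : ⟪F1, F2⟫ = 0) (hl1p : 0 < l1) (hl2p : 0 < l2) (n1 : ‖F1‖ ≠ 0) (n2 : ‖F2‖ ≠ 0)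
    (hF1B : ‖F1‖ ≤ B) (hF2B : ‖F2‖ ≤ B)
    (fB : ∀ x ∈ ann N ρ, |f1 x| ≤ B ∧ |f2 x| ≤ B)
    (hLL : ∀ w ∈ XS e ρ, ∀ c1 c2 : ℝ,
      m * (‖w‖ + |c1| + |c2|) ≤ ‖w - lam' • T (ann N ρ) (fn w) - c1 • F1 - c2 • F2‖
        + |⟪F1, w⟫| + |⟪F2, w⟫|)
    (v1 : |(∫ x in ann N ρ, nl N (f1 x + b * f2 x) * f1 x) - A1| < ε / 8)
    (v2 : |(∫ x in ann N ρ, nl N (f1 x + b * f2 x) * f2 x) - A2| < ε / 8)
    (v3 : |(∫ x in ann N ρ, dnl N (f1 x + b * f2 x) * (f1 x * f1 x)) - A11| < ε / 8)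
    (v4 : |(∫ x in ann N ρ, dnl N (f1 x + b * f2 x) * (f1 x * f2 x)) - A12| < ε / 8)
    (v5 : |(∫ x in ann N ρ, dnl N (f1 x + b * f2 x) * (f2 x * f2 x)) - A22| < ε / 8)
    (hb : |b + 1| ≤ η) (hsk : sig ≤ k) (hsig : 0 < sig) (hom : om ∈ XS e ρ)
    (hom_le : ‖om‖ ≤ Cp * sig) (ho1 : ⟪F1, om⟫ = 0) (ho2 : ⟪F2, om⟫ = 0)
    (hU : U = F1 + b • F2 + om) (hUb0 : ∀ᵐ x, |fn U x| ≤ Cp)
    (hUeq : Weak (ann N ρ) U (fun x => lam' * fn U x + sig * nl N (fn U x)))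
    (hw : w ∈ XS e ρ)
    (hweq' : Weak (ann N ρ) w (fun x => lam' * fn w x + sig * (dnl N (fn U x) * fn w x))) :
    w = 0 := by
  have cnl : Continuous (nl N) :=
    continuous_iff_continuousAt.2 fun u => (hasDerivAt_nl hN hN5 u).continuousAt
  have cdnl : Continuous (dnl N) := continuous_dnl hN hN5
  have hG0 : 0 < G := by rw [hG]; positivity
  have hms := (nd51_open (N := N) ρ).measurableSet
  have d1 := nd51_XS_DD hN x1m
  have d2 := nd51_XS_DD hN x2m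
  have dom := nd51_XS_DD hN hom
  have hb2 : |b| ≤ 2 := by
    have : |b| ≤ |b + 1| + |(1 : ℝ)| := by
      calc |b| = |(b + 1) - 1| := by ring_nf
        _ ≤ _ := abs_sub _ _
    rw [abs_one] at this; linarith
  have hUb : ∀ᵐ x, |fn U x| ≤ K := by
    filter_upwards [hUb0] with x hx
    exact hx.trans (by rw [hKdef]; linarith)
  have ff : ∀ (F : LV N) (f : E N → ℝ), fn F =ᵐ[volume] (ann N ρ).indicator f →
      fn F =ᵐ[volume.restrict (ann N ρ)] f := fun F f hf => by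
    filter_upwards [ae_restrict_of_ae hf, ae_restrict_mem hms] with x hx hxm
    rw [hx, indicator_of_mem hxm]
  have fU : ∀ᵐ x ∂(volume.restrict (ann N ρ)), fn U x - (f1 x + b * f2 x) = fn om x := by
    have u1 := DD_le_univ58 _ d1
    have u2 := DD_le_univ58 _ d2
    have u3 := DD_le_univ58 _ dom
    have b1 := fn_add hN (Submodule.add_mem _ u1 (Submodule.smul_mem _ b u2)) u3
    have b2 := fn_add hN u1 (Submodule.smul_mem _ b u2)
    have b4 := fn_smul hN b u2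
    filter_upwards [ae_restrict_of_ae b1, ae_restrict_of_ae b2,
      ae_restrict_of_ae b4, ff _ _ x1f, ff _ _ x2f] with x h1 h2 h4 h5 h6
    rw [hU, h1, h2, h4, h5, h6]; ring
  have f1m : AEStronglyMeasurable f1 (volume.restrict (ann N ρ)) :=
    (fn_meas F1).restrict.congr (ff _ _ x1f)
  have f2m : AEStronglyMeasurable f2 (volume.restrict (ann N ρ)) :=
    (fn_meas F2).restrict.congr (ff _ _ x2f)
  have vm : AEStronglyMeasurable (fun x => f1 x + b * f2 x) (volume.restrict (ann N ρ)) :=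
    f1m.add (f2m.const_mul b)
  have vb : ∀ᵐ x ∂(volume.restrict (ann N ρ)), |f1 x + b * f2 x| ≤ K := by
    filter_upwards [ae_restrict_mem hms] with x hx
    obtain ⟨h1, h2⟩ := fB x hx
    calc |f1 x + b * f2 x| ≤ |f1 x| + |b| * |f2 x| := by
          rw [← abs_mul]; exact abs_add_le _ _
      _ ≤ B + 2 * B := by gcongr
      _ ≤ K := by rw [hKdef]; linarith
  have omI := hL1 om dom
  have hom1 : ∫ x in ann N ρ, |fn om x| ≤ S1 * (Cp * k) := by
    refine omI.2.trans (mul_le_mul_of_nonneg_left ?_ hS1.le)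
    refine hom_le.trans ?_
    gcongr
  have pert : ∀ (H : ℝ → ℝ) (L : ℝ) (g : E N → ℝ), Continuous H → 0 ≤ L → L ≤ Ln + Ld →
      (∀ u v : ℝ, |u| ≤ K → |v| ≤ K → |H u - H v| ≤ L * |u - v|) →
      AEStronglyMeasurable g (volume.restrict (ann N ρ)) →
      (∀ x ∈ ann N ρ, |g x| ≤ G) →
      |(∫ x in ann N ρ, H (fn U x) * g x) - ∫ x in ann N ρ, H (f1 x + b * f2 x) * g x|
        ≤ ε / 8 := by
    intro H L g hHc hL0 hL hH hg hgb
    have hgb' : ∀ᵐ x ∂(volume.restrict (ann N ρ)), |g x| ≤ G := by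
      filter_upwards [ae_restrict_mem hms] with x hx using hgb x hx
    refine (nd51_pert hHc hK.le hL0 hH (fn_meas U).restrict vm hg (ae_restrict_of_ae hUb) vb
      hgb' omI.1 fU).trans ?_
    calc L * G * ∫ x in ann N ρ, |fn om x| ≤ (Ln + Ld) * G * (S1 * (Cp * k)) := by
          have : 0 ≤ ∫ x in ann N ρ, |fn om x| := integral_nonneg fun x => abs_nonneg _
          gcongr
      _ = k * Q := by rw [hQ]; ring
      _ ≤ ε / 8 := by linarith
  have gB1 : ∀ x ∈ ann N ρ, |f1 x| ≤ G := fun x hx => by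
    have := (fB x hx).1; have : 0 ≤ B * B := by positivity
    rw [hG]; linarith
  have gB2 : ∀ x ∈ ann N ρ, |f2 x| ≤ G := fun x hx => by
    have := (fB x hx).2; have : 0 ≤ B * B := by positivity
    rw [hG]; linarith
  have gBB : ∀ u v : ℝ, |u| ≤ B → |v| ≤ B → |u * v| ≤ G := fun u v hu hv => by
    rw [abs_mul, hG]
    have : |u| * |v| ≤ B * B := mul_le_mul hu hv (abs_nonneg _) hB.le
    linarith
  have t1 := pert (nl N) Ln f1 cnl hLn.le (by linarith) hnl f1m gB1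
  have t2 := pert (nl N) Ln f2 cnl hLn.le (by linarith) hnl f2m gB2
  have t3 := pert (dnl N) Ld (fun x => f1 x * f1 x) cdnl hLd.le (by linarith) hdnl (f1m.mul f1m)
    (fun x hx => gBB _ _ (fB x hx).1 (fB x hx).1)
  have t4 := pert (dnl N) Ld (fun x => f1 x * f2 x) cdnl hLd.le (by linarith) hdnl (f1m.mul f2m)
    (fun x hx => gBB _ _ (fB x hx).1 (fB x hx).2)
  have t5 := pert (dnl N) Ld (fun x => f2 x * f2 x) cdnl hLd.le (by linarith) hdnl (f2m.mul f2m)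
    (fun x hx => gBB _ _ (fB x hx).2 (fB x hx).2)
  have tri : ∀ x y z : ℝ, |x - y| ≤ ε / 8 → |y - z| < ε / 8 → |x - z| ≤ ε / 4 :=
    fun x y z h1 h2 => by
      have : |x - z| ≤ |x - y| + |y - z| := abs_sub_le _ _ _
      linarith
  have z1 := tri _ _ _ t1 v1
  have z2 := tri _ _ _ t2 v2
  have z3 := tri _ _ _ t3 v3
  have z4 := tri _ _ _ t4 v4
  have z5 := tri _ _ _ t5 v5
  clear t1 t2 t3 t4 t5 v1 v2 v3 v4 v5
  -- the potential
  have a2m : AEStronglyMeasurable (fun x => dnl N (fn U x)) (volume.restrict (ann N ρ)) :=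
    (cdnl.comp_aestronglyMeasurable (fn_meas U)).restrict
  have a2b : ∀ᵐ x ∂(volume.restrict (ann N ρ)), |dnl N (fn U x)| ≤ Kd := by
    filter_upwards [ae_restrict_of_ae hUb] with x hx
    have h1 := hdnl (fn U x) 0 hx (by simpa using hK.le)
    have h2 : |dnl N (fn U x)| ≤ |dnl N (fn U x) - dnl N 0| + |dnl N 0| := by
      calc |dnl N (fn U x)| = |(dnl N (fn U x) - dnl N 0) + dnl N 0| := by ring_nf
        _ ≤ _ := abs_add_le _ _
    have h3 : Ld * |fn U x - 0| ≤ Ld * K := by rw [sub_zero]; gcongr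
    rw [hKd]; linarith
  obtain ⟨x1, x2, w', hw'm, hwdec, o1, o2, hw'le⟩ := nd51_lin hN (e := e) (ρ := ρ) (m := m)
    (K := Kd) (S := S2) (lam' := lam') (a := fun x => dnl N (fn U x)) hm hsig.le hl1p hl2p
    x1m x2m x1f x2f x1W x2W h12 n1 n2 hLL (fun w hw => hT _ w a2m a2b hw) hw hweq'
  have dw' := nd51_XS_DD hN hw'm
  obtain ⟨s1, s2⟩ := nd51_sys hN hN5 hK.le hsig hl1p hl2p d1 d2 x1f x2f
    (fun x hx => (fB x hx).1) (fun x hx => (fB x hx).2) x1in x2in h12 dom hU ho1 ho2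
    hUb hUeq dw' hwdec o1 o2 hweq'
  have f1b : ∀ᵐ x ∂(volume.restrict (ann N ρ)), |f1 x| ≤ B := by
    filter_upwards [ae_restrict_mem hms] with x hx using (fB x hx).1
  have f2b : ∀ᵐ x ∂(volume.restrict (ann N ρ)), |f2 x| ≤ B := by
    filter_upwards [ae_restrict_mem hms] with x hx using (fB x hx).2
  have r1 := nd51_R a2b f1b hKd0.le (hL1 w' dw').1
  have r2 := nd51_R a2b f2b hKd0.le (hL1 w' dw').1
  have r3 := (hL1 w' dw').2
  -- names for the integrals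
  generalize (∫ x in ann N ρ, nl N (fn U x) * f1 x) = N1 at *
  generalize (∫ x in ann N ρ, nl N (fn U x) * f2 x) = N2 at *
  generalize (∫ x in ann N ρ, dnl N (fn U x) * (f1 x * f1 x)) = M11 at *
  generalize (∫ x in ann N ρ, dnl N (fn U x) * (f1 x * f2 x)) = M12 at *
  generalize (∫ x in ann N ρ, dnl N (fn U x) * (f2 x * f2 x)) = M22 at *
  generalize (∫ x in ann N ρ, dnl N (fn U x) * fn w' x * f1 x) = R1 at *
  generalize (∫ x in ann N ρ, dnl N (fn U x) * fn w' x * f2 x) = R2 at *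
  have hRb : |b + 1| * R ≤ ε / 8 := by
    calc |b + 1| * R ≤ η * R := by gcongr
      _ ≤ ε / 8 := by
        have := (abs_nonneg (b + 1)).trans hb
        linarith
  have hR12 : |b + 1| * |A12| ≤ ε / 8 := by
    refine le_trans ?_ hRb
    rw [hR]
    have := abs_nonneg A22
    gcongr
    linarith
  have hR22 : |b + 1| * |A22| ≤ ε / 8 := by
    refine le_trans ?_ hRb
    rw [hR]
    have := abs_nonneg A12
    gcongr
    linarith
  have m1 : |(N1 - M11) - (A1 - A11)| ≤ ε := by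
    have : (N1 - M11) - (A1 - A11) = (N1 - A1) - (M11 - A11) := by ring
    rw [this]
    have := abs_sub (N1 - A1) (M11 - A11)
    linarith
  have m2 : |(-M12) - (-A12)| ≤ ε := by
    have : (-M12) - (-A12) = -(M12 - A12) := by ring
    rw [this, abs_neg]; linarith
  have m3 : |(-(b * M12)) - A12| ≤ ε := by
    have : (-(b * M12)) - A12 = (-b) * (M12 - A12) - (b + 1) * A12 := by ring
    rw [this]
    have h1 := abs_sub ((-b) * (M12 - A12)) ((b + 1) * A12)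
    rw [abs_mul, abs_mul, abs_neg] at h1
    have h2 : |b| * |M12 - A12| ≤ 2 * (ε / 4) := by gcongr
    linarith
  have m4 : |(N2 - b * M22) - (A2 + A22)| ≤ ε := by
    have : (N2 - b * M22) - (A2 + A22)
        = (N2 - A2) - (b * (M22 - A22) + (b + 1) * A22) := by ring
    rw [this]
    have h1 := abs_sub (N2 - A2) (b * (M22 - A22) + (b + 1) * A22)
    have h3 := abs_add_le (b * (M22 - A22)) ((b + 1) * A22)
    rw [abs_mul, abs_mul] at h3
    have h2 : |b| * |M22 - A22| ≤ 2 * (ε / 4) := by gcongr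
    linarith
  have hX := hmat _ _ _ _ x1 x2 m1 m2 m3 m4
  rw [s1, s2] at hX
  have hX2 : |x1| + |x2| ≤ P * ‖w'‖ := by
    refine hX.trans ?_
    rw [abs_mul, hP]
    have e1 : Kd * B * ∫ x in ann N ρ, |fn w' x| ≤ Kd * B * (S1 * ‖w'‖) := by gcongr
    have e2 : |b| * |R2| ≤ 2 * (Kd * B * (S1 * ‖w'‖)) := by
      have := r2.trans e1
      gcongr
    calc K0 * (|R1| + |b| * |R2|)
        ≤ K0 * (Kd * B * (S1 * ‖w'‖) + 2 * (Kd * B * (S1 * ‖w'‖))) := by
          have := r1.trans e1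
          gcongr
      _ = _ := by ring
  have hW2 : ‖w‖ ≤ B * (|x1| + |x2|) + ‖w'‖ := by
    rw [hwdec]
    refine (norm_add_le _ _).trans ?_
    gcongr
    refine (norm_add_le _ _).trans ?_
    rw [norm_smul, norm_smul, Real.norm_eq_abs, Real.norm_eq_abs]
    have y1 := mul_le_mul_of_nonneg_left hF1B (abs_nonneg x1)
    have y2 := mul_le_mul_of_nonneg_left hF2B (abs_nonneg x2)
    linarith
  have hW1 : ‖w'‖ ≤ sig * c1 * ‖w‖ := by
    have : ‖w'‖ = (m * ‖w'‖) / m := by field_simp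
    rw [this, div_le_iff₀ hm, hc1def]
    refine hw'le.trans (le_of_eq ?_)
    field_simp
  obtain ⟨hx0, hw0⟩ := nd51_fin (X := |x1| + |x2|) (W := ‖w‖) (W' := ‖w'‖) (by positivity)
    (norm_nonneg _) hB hc10 hP0 hsig hsk hW1 hW2 hX2 hc2def hk1 hk2 (norm_nonneg _)
  rw [hx0, hw0, mul_zero, add_zero] at hW2
  exact norm_le_zero_iff.1 hW2

theorem fam_nondeg (hN : 3 ≤ N) (hN5 : N ≤ 5) (D : Cr N) {e : E N} (he : ‖e‖ = 1) (C : ℝ) :
    ∃ η k : ℝ, 0 < η ∧ 0 < k ∧ ∀ᶠ i in atTop, ∀ (b : ℝ) (om : LV N) (sig lam' : ℝ),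
      |b + 1| ≤ η → sig ≤ k → SolB D e i C b om sig lam' →
      ∀ w ∈ XS e (D.rho i), Weak (D.Om i) w (fun x => lam' * fn w x
        + sig * dnl N (fn (D.F1 e i + b • D.F2 e i + om) x) * fn w x) → w = 0 := by
  obtain ⟨κ, hκ, hconf⟩ := exists_conf N hN
  obtain ⟨B, hB, hbdd⟩ := eig_bdd hN D he
  obtain ⟨m, δ₀, hm, hδ₀, hLL⟩ := LL hN D he
  obtain ⟨S1, hS1, hL1⟩ := nd51_L1 (N := N) hN
  obtain ⟨S2, hS2, hT⟩ := nd51_T (N := N) hN
  obtain ⟨K, hKdef⟩ : ∃ K : ℝ, K = |C| + 3 * B := ⟨_, rfl⟩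
  have hC0 := abs_nonneg C
  have hK : 0 < K := by rw [hKdef]; positivity
  obtain ⟨Ln, hLn, hnl⟩ := nd51_nlK hN hN5 K hK.le
  obtain ⟨Ld, hLd, hdnl⟩ := nd51_dnlK hN hN5 K hK.le
  obtain ⟨Kd, hKd⟩ : ∃ Kd : ℝ, Kd = |dnl N 0| + Ld * K := ⟨_, rfl⟩
  have hKd0 : 0 < Kd := by rw [hKd]; positivity
  have cnl : Continuous (nl N) :=
    continuous_iff_continuousAt.2 fun u => (hasDerivAt_nl hN hN5 u).continuousAt
  have cdnl : Continuous (dnl N) := continuous_dnl hN hN5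
  -- limit integrals
  obtain ⟨A1, hA1⟩ : ∃ A : ℝ, A = κ * cI N D.l (yf (cc N) D.lam) (yf (D.l + cc N) D.lam) D.L
    (fun u v => nl N (u + (-1) * v) * u) := ⟨_, rfl⟩
  obtain ⟨A2, hA2⟩ : ∃ A : ℝ, A = κ * cI N D.l (yf (cc N) D.lam) (yf (D.l + cc N) D.lam) D.L
    (fun u v => nl N (u + (-1) * v) * v) := ⟨_, rfl⟩
  obtain ⟨A11, hA11⟩ : ∃ A : ℝ, A = κ * cI N D.l (yf (cc N) D.lam) (yf (D.l + cc N) D.lam) D.L
    (fun u v => dnl N (u + (-1) * v) * (u * u)) := ⟨_, rfl⟩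
  obtain ⟨A12, hA12⟩ : ∃ A : ℝ, A = κ * cI N D.l (yf (cc N) D.lam) (yf (D.l + cc N) D.lam) D.L
    (fun u v => dnl N (u + (-1) * v) * (u * v)) := ⟨_, rfl⟩
  obtain ⟨A22, hA22⟩ : ∃ A : ℝ, A = κ * cI N D.l (yf (cc N) D.lam) (yf (D.l + cc N) D.lam) D.L
    (fun u v => dnl N (u + (-1) * v) * (v * v)) := ⟨_, rfl⟩
  have hdet : (A1 - A11) * (A2 + A22) - (-A12) * A12 ≠ 0 := by
    have h := D.condB
    unfold CondB at h
    have g1 : (fun u v : ℝ => nl N (u - v) * u) = fun u v => nl N (u + (-1) * v) * u := by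
      funext u v; rw [show u - v = u + (-1) * v by ring]
    have g2 : (fun u v : ℝ => nl N (u - v) * v) = fun u v => nl N (u + (-1) * v) * v := by
      funext u v; rw [show u - v = u + (-1) * v by ring]
    have g3 : (fun u v : ℝ => dnl N (u - v) * u ^ 2)
        = fun u v => dnl N (u + (-1) * v) * (u * u) := by
      funext u v; rw [show u - v = u + (-1) * v by ring, sq]
    have g4 : (fun u v : ℝ => dnl N (u - v) * v ^ 2)
        = fun u v => dnl N (u + (-1) * v) * (v * v) := by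
      funext u v; rw [show u - v = u + (-1) * v by ring, sq]
    have g5 : (fun u v : ℝ => dnl N (u - v) * (u * v))
        = fun u v => dnl N (u + (-1) * v) * (u * v) := by
      funext u v; rw [show u - v = u + (-1) * v by ring]
    rw [g1, g2, g3, g4, g5] at h
    rw [hA1, hA2, hA11, hA12, hA22]
    intro h0
    apply h
    have h1 : κ ^ 2 * ((cI N D.l (yf (cc N) D.lam) (yf (D.l + cc N) D.lam) D.L
          (fun u v => dnl N (u + (-1) * v) * (u * u))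
        - cI N D.l (yf (cc N) D.lam) (yf (D.l + cc N) D.lam) D.L
          (fun u v => nl N (u + (-1) * v) * u))
        * (cI N D.l (yf (cc N) D.lam) (yf (D.l + cc N) D.lam) D.L
          (fun u v => dnl N (u + (-1) * v) * (v * v))
        + cI N D.l (yf (cc N) D.lam) (yf (D.l + cc N) D.lam) D.L
          (fun u v => nl N (u + (-1) * v) * v))
        - cI N D.l (yf (cc N) D.lam) (yf (D.l + cc N) D.lam) D.L
          (fun u v => dnl N (u + (-1) * v) * (u * v)) ^ 2) = 0 := by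
      linear_combination (-1) * h0
    rcases mul_eq_zero.1 h1 with h2 | h2
    · exact absurd h2 (by positivity)
    · exact h2
  obtain ⟨ε, K0, hε, hK0, hmat⟩ := nd51_mat hdet
  have hε8 : (0 : ℝ) < ε / 8 := by positivity
  obtain ⟨δ1, hδ1, hc1⟩ := nd51_conv hN D (e := e) hκ (hconf e he).2
    (G := fun b u v => nl N (u + b * v) * u)
    (nd51_contH cnl (P := fun u _ => u) continuous_fst)
    (fun b τ u v hτ => nd51_hom1 hN b τ u v u hτ) (ε / 8) hε8
  obtain ⟨δ2, hδ2, hc2⟩ := nd51_conv hN D (e := e) hκ (hconf e he).2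
    (G := fun b u v => nl N (u + b * v) * v)
    (nd51_contH cnl (P := fun _ v => v) continuous_snd)
    (fun b τ u v hτ => nd51_hom1 hN b τ u v v hτ) (ε / 8) hε8
  obtain ⟨δ3, hδ3, hc3⟩ := nd51_conv hN D (e := e) hκ (hconf e he).2
    (G := fun b u v => dnl N (u + b * v) * (u * u))
    (nd51_contH cdnl (P := fun u _ => u * u) (by fun_prop))
    (fun b τ u v hτ => nd51_hom2 hN b τ u v u u hτ) (ε / 8) hε8
  obtain ⟨δ4, hδ4, hc4⟩ := nd51_conv hN D (e := e) hκ (hconf e he).2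
    (G := fun b u v => dnl N (u + b * v) * (u * v))
    (nd51_contH cdnl (P := fun u v => u * v) (by fun_prop))
    (fun b τ u v hτ => nd51_hom2 hN b τ u v u v hτ) (ε / 8) hε8
  obtain ⟨δ5, hδ5, hc5⟩ := nd51_conv hN D (e := e) hκ (hconf e he).2
    (G := fun b u v => dnl N (u + b * v) * (v * v))
    (nd51_contH cdnl (P := fun _ v => v * v) (by fun_prop))
    (fun b τ u v hτ => nd51_hom2 hN b τ u v v v hτ) (ε / 8) hε8
  simp only [← hA1] at hc1
  simp only [← hA2] at hc2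
  simp only [← hA11] at hc3
  simp only [← hA12] at hc4
  simp only [← hA22] at hc5
  clear hA1 hA2 hA11 hA12 hA22 hdet hconf cnl cdnl
  -- constants
  obtain ⟨G, hG⟩ : ∃ G : ℝ, G = B + B * B := ⟨_, rfl⟩
  obtain ⟨c1, hc1def⟩ : ∃ c1 : ℝ, c1 = S2 * Kd / m := ⟨_, rfl⟩
  obtain ⟨P, hP⟩ : ∃ P : ℝ, P = K0 * (3 * (Kd * B * S1)) := ⟨_, rfl⟩
  obtain ⟨c2, hc2def⟩ : ∃ c2 : ℝ, c2 = P * (2 * B * c1) := ⟨_, rfl⟩
  obtain ⟨Q, hQ⟩ : ∃ Q : ℝ, Q = (Ln + Ld) * G * (S1 * |C|) := ⟨_, rfl⟩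
  obtain ⟨R, hR⟩ : ∃ R : ℝ, R = |A12| + |A22| := ⟨_, rfl⟩
  have hG0 : 0 < G := by rw [hG]; positivity
  have hc10 : 0 ≤ c1 := by rw [hc1def]; positivity
  have hP0 : 0 ≤ P := by rw [hP]; positivity
  have hc20 : 0 ≤ c2 := by rw [hc2def]; positivity
  have hQ0 : 0 ≤ Q := by rw [hQ]; positivity
  have hR0 : 0 ≤ R := by rw [hR]; positivity
  obtain ⟨η, hηpos, hη1, hη2, hη3, hη4, hη5, hη6, hη7⟩ : ∃ η : ℝ, 0 < η ∧ η ≤ 1 / 2 ∧
      η ≤ ε / (8 * (R + 1)) ∧ η ≤ δ1 / 2 ∧ η ≤ δ2 / 2 ∧ η ≤ δ3 / 2 ∧ η ≤ δ4 / 2 ∧ η ≤ δ5 / 2 := by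
    refine ⟨min (1 / 2) (min (ε / (8 * (R + 1)))
      (min (δ1 / 2) (min (δ2 / 2) (min (δ3 / 2) (min (δ4 / 2) (δ5 / 2)))))), ?_, ?_, ?_, ?_, ?_,
      ?_, ?_, ?_⟩
    · refine lt_min (by norm_num) (lt_min (by positivity) (lt_min (by positivity)
        (lt_min (by positivity) (lt_min (by positivity) (lt_min (by positivity)
          (by positivity))))))
    all_goals simp only [min_le_iff, le_refl, true_or, or_true]
  obtain ⟨k, hkpos, hk1, hk2, hk3, hk4⟩ : ∃ k : ℝ, 0 < k ∧ k ≤ 1 / (2 * (c1 + 1)) ∧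
      k ≤ 1 / (2 * (c2 + 1)) ∧ k ≤ ε / (8 * (Q + 1)) ∧ k ≤ δ₀ / (4 * (|C| + 1)) := by
    refine ⟨min (1 / (2 * (c1 + 1))) (min (1 / (2 * (c2 + 1)))
      (min (ε / (8 * (Q + 1))) (δ₀ / (4 * (|C| + 1))))), ?_, ?_, ?_, ?_, ?_⟩
    · exact lt_min (by positivity) (lt_min (by positivity) (lt_min (by positivity)
        (by positivity)))
    all_goals simp only [min_le_iff, le_refl, true_or, or_true]
  rw [le_div_iff₀ (by positivity)] at hk1 hk2 hk3 hk4 hη2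
  refine ⟨η, k, hηpos, hkpos, ?_⟩
  have hlam1 : ∀ᶠ i in atTop, |D.lam1 i - D.lam| < δ₀ / 2 := by
    have := (Metric.tendsto_atTop.1 D.t1) (δ₀ / 2) (by positivity)
    obtain ⟨n, hn⟩ := this
    filter_upwards [eventually_ge_atTop n] with i hi
    simpa [Real.dist_eq] using hn i hi
  filter_upwards [hbdd, hLL, hc1, hc2, hc3, hc4, hc5, hlam1] with i hi hLLi g1 g2 g3 g4 g5 hl1
  intro b om sig lam' hb hsk hS w hw hweq
  obtain ⟨hfb, -, -, hF1B, hF2B, hF1n, hF2n⟩ := hi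
  obtain ⟨x1m, x1f, x1W, x1in⟩ := nd51_F1 hN D he i
  obtain ⟨x2m, x2f, x2W, x2in⟩ := nd51_F2 hN D he i
  have h12 := nd51_orth hN D he i
  have hsig := hS.sig_pos
  have fB : ∀ x ∈ ann N (D.rho i), |D.f1 e i x| ≤ B ∧ |D.f2 e i x| ≤ B := fun x hx => by
    have h1 : B * (1 - ‖x‖) ≤ B := by
      have := norm_nonneg x
      have : B * (1 - ‖x‖) ≤ B * 1 := by gcongr; linarith
      linarith
    obtain ⟨h2, h3⟩ := hfb x hx
    exact ⟨h2.trans h1, h3.trans h1⟩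
  have hlam' : |lam' - D.lam| < δ₀ := by
    have h1 : |lam' - D.lam| ≤ |lam' - D.lam1 i| + |D.lam1 i - D.lam| := abs_sub_le _ _ _
    have h2 : |lam' - D.lam1 i| ≤ |C| * k := hS.near1.trans (by
      calc C * sig ≤ |C| * sig := mul_le_mul_of_nonneg_right (le_abs_self C) hsig.le
        _ ≤ |C| * k := by gcongr)
    have h3 : |C| * k ≤ δ₀ / 4 := by linarith
    linarith
  have hweq' : Weak (ann N (D.rho i)) w
      (fun x => lam' * fn w x + sig * (dnl N (fn (D.F1 e i + b • D.F2 e i + om) x) * fn w x)) := by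
    have : (fun x => lam' * fn w x
          + sig * (dnl N (fn (D.F1 e i + b • D.F2 e i + om) x) * fn w x))
        = fun x => lam' * fn w x
          + sig * dnl N (fn (D.F1 e i + b • D.F2 e i + om) x) * fn w x := by
      funext x; ring
    rw [this]; exact hweq
  have hl1p := D.pos1 i
  have hl2p : 0 < D.lam2 i := hl1p.trans (D.lt i)
  have hBi : 0 < B⁻¹ := by positivity
  have n1 : ‖D.F1 e i‖ ≠ 0 := (hBi.trans_le hF1n).ne'
  have n2 : ‖D.F2 e i‖ ≠ 0 := (hBi.trans_le hF2n).ne'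
  have hom_le : ‖om‖ ≤ |C| * sig :=
    hS.om_le.trans (mul_le_mul_of_nonneg_right (le_abs_self C) hsig.le)
  have hUb : ∀ᵐ x, |fn (D.F1 e i + b • D.F2 e i + om) x| ≤ |C| := by
    filter_upwards [hS.bdd] with x hx using hx.trans (le_abs_self C)
  have b1 : |b + 1| < δ1 := by linarith
  have b2 : |b + 1| < δ2 := by linarith
  have b3 : |b + 1| < δ3 := by linarith
  have b4 : |b + 1| < δ4 := by linarith
  have b5 : |b + 1| < δ5 := by linarith
  exact nd51_core (e := e) hN hN5 hB hm hS1 (hL1 (D.rho i))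
    (fun a w h1 h2 h3 => hT (D.rho i) Kd a w hKd0.le h1 h2 h3) hC0 hKdef hK hLn hLd hnl hdnl
    hKd hKd0 hε hK0 hmat hG hc1def hc10 hP hP0 hc2def hQ hR hR0 hη1 hη2 hkpos hk1 hk2 hk3
    x1m x2m x1f x2f x1W x2W x1in x2in h12 hl1p hl2p n1 n2 hF1B hF2B fB (hLLi lam' hlam')
    (g1 b b1) (g2 b b2) (g3 b b3) (g4 b b4) (g5 b b5) hb hsk hsig hS.mem hom_le hS.orth1
    hS.orth2 rfl hUb hS.eqn hw hweq'

end Pool.Agent.helper13.BN
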